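import Mathlib

/-!
# Frechet and non-Frechet b-scales: the notions of the problem and their relativisation

First the notions of the problem: `IsBScale`, `dow`. Then the same notions relativised to a third
order structure `(ω, R, Q)`: `R` is a set of subsets of `ω` (given by predicates `ℕ → Prop`) and
`Q` is a set of sets of subsets of `ω`. A function between countable sets belongs to the
structure if its graph (coded as a subset of `ω`) belongs to `R`.
-/

set_option autoImplicit false

namespace Pool.Agent.Helper50.LF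

open Set Filter Cardinal

/-! ## The notions of the problem -/

/-- Nodes of the tree of finite sequences of natural numbers. -/
abbrev Node := List ℕ

/-- The cone of all extensions of `s`. -/
def cone (s : Node) : Set Node := {t | ∃ u, t = s ++ u}

/-- Increasing functions on the tree. -/
def Increasing (f : Node → ℕ) : Prop :=
  (∀ s u, u ≠ [] → f s < f (s ++ u)) ∧ ∀ s n m, n < m → f (s ++ [n]) < f (s ++ [m])

/-- Eventual domination on the tree. -/
def LeStar (f g : Node → ℕ) : Prop := {s | ¬ f s ≤ g s}.Finite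

/-- The subtree in which every node `s` loses exactly the successor `f s`. -/
def U (f : Node → ℕ) : Set Node := {s | ∀ i, ∀ h : i < s.length, s[i] ≠ f (s.take i)}

/-- The topology of the Dow space of `B`. -/
def dow (B : Set (Node → ℕ)) : TopologicalSpace Node :=
  TopologicalSpace.generateFrom
    ({V | ∃ s, V = cone s} ∪ {V | ∃ s, V = (cone s)ᶜ} ∪ {V | ∃ f ∈ B, V = U f})

/-- The bounding number. -/
noncomputable def bnum : Cardinal.{0} :=
  sInf {κ | ∃ F : Set (ℕ → ℕ), #F = κ ∧ ∀ g : ℕ → ℕ, ∃ f ∈ F, ¬ {n | ¬ f n ≤ g n}.Finite}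

/-- b-scales: families of increasing functions, unbounded, well-ordered by eventual domination
in order type `bnum`, with cofinally many members taking a large value at the root. -/
structure IsBScale (B : Set (Node → ℕ)) : Prop where
  increasing : ∀ f ∈ B, Increasing f
  unbounded : ∀ g : Node → ℕ, ∃ f ∈ B, ¬ LeStar f g
  orderType : ∃ e : bnum.ord.ToType → (Node → ℕ), Set.range e = B ∧
    ∀ x y, x ≤ y ↔ LeStar (e x) (e y)
  root : ∀ n : ℕ, ∀ f ∈ B, ∃ g ∈ B, LeStar f g ∧ n < g []

/-! ## Relativisation to a third order structure -/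

/-- The graph of a function between countable sets, as a subset of `ω`. -/
def gr {α β : Type} [Encodable α] [Encodable β] (f : α → β) : ℕ → Prop :=
  fun c => ∃ a, c = Nat.pair (Encodable.encode a) (Encodable.encode (f a))

/-- The code of a subset of a countable set. -/
def stc {α : Type} [Encodable α] (A : Set α) : ℕ → Prop := fun c => ∃ a ∈ A, c = Encodable.encode a

/-- The pair (`x`, number `s`), as a subset of `ω`: `s` elements, then a non-element, then `x`. -/
def shf (s : ℕ) (x : ℕ → Prop) (n : ℕ) : Prop := n < s ∨ (s < n ∧ x (n - s - 1))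

/-- `B` is a b-scale in the sense of the structure `(ω, R, Q)`. The condition on the order type says
that every family of functions which is indexed by a proper initial segment of `B` and belongs to
the structure is bounded in the structure (so the proper initial segments of the well-ordered set `B`
have fewer than `b` elements, in the sense of the structure). -/
structure BScaleIn (R : Set (ℕ → Prop)) (Q : Set (Set (ℕ → Prop))) (B : Set (Node → ℕ)) :
    Prop where
  mem : gr '' B ∈ Q
  sub : ∀ f ∈ B, gr f ∈ R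
  increasing : ∀ f ∈ B, Increasing f
  unbounded : ∀ g : Node → ℕ, gr g ∈ R → ∃ f ∈ B, ¬ LeStar f g
  linear : ∀ f ∈ B, ∀ g ∈ B, LeStar f g ∨ LeStar g f
  antisymm : ∀ f ∈ B, ∀ g ∈ B, LeStar f g → LeStar g f → f = g
  wf : ∀ D ⊆ B, D.Nonempty → ∃ f ∈ D, ∀ g ∈ D, LeStar f g
  orderType : ∀ g ∈ B, ∀ φ : (Node → ℕ) → ℕ → ℕ,
    {x | ∃ f ∈ B, LeStar f g ∧ f ≠ g ∧ ∃ n, x = shf (Nat.pair n (φ f n)) (gr f)} ∈ Q →
    ∃ h : ℕ → ℕ, gr h ∈ R ∧ ∀ f ∈ B, LeStar f g → f ≠ g → {n | ¬ φ f n ≤ h n}.Finite
  root : ∀ n : ℕ, ∀ f ∈ B, ∃ g ∈ B, LeStar f g ∧ n < g []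

/-- The family `B` is unbounded on every infinite set of nodes, in the sense of the structure. -/
def RobustIn (R : Set (ℕ → Prop)) (B : Set (Node → ℕ)) : Prop :=
  ∀ X : Set Node, stc X ∈ R → X.Infinite → ∀ g : Node → ℕ, gr g ∈ R →
    ∃ f ∈ B, ¬ {s ∈ X | ¬ f s ≤ g s}.Finite

/-- The Dow space of `B` is Frechet-Urysohn in the sense of the structure. -/
def FrechetIn (R : Set (ℕ → Prop)) (B : Set (Node → ℕ)) : Prop :=
  ∀ A : Set Node, stc A ∈ R → ∀ x ∈ @closure Node (dow B) A,
    ∃ z : ℕ → Node, gr z ∈ R ∧ (∀ k, z k ∈ A) ∧ Tendsto z atTop (@nhds Node (dow B) x)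

/-- The sentence: there are a b-scale whose Dow space is Frechet-Urysohn and a b-scale whose Dow
space is not (both unbounded on every infinite set of nodes). -/
def Sentence (R : Set (ℕ → Prop)) (Q : Set (Set (ℕ → Prop))) : Prop :=
  (∃ B : Set (Node → ℕ), BScaleIn R Q B ∧ RobustIn R B ∧ FrechetIn R B) ∧
    ∃ B : Set (Node → ℕ), BScaleIn R Q B ∧ RobustIn R B ∧ ¬ FrechetIn R B

end Pool.Agent.Helper50.LF
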