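import Pool.Agent.Helper94.BA.Sent
import Pool.Agent.Helper32.FR.Sent
import Pool.Agent.Helper50.LF.Sent

/-!
# Project LF (MP_743798_lc): names of scales

`w : J → B` is (a name for) a subset of the index set `J`, and `g j` is a name of a function
`ℕ → ℕ` (`g j m k` is the value of `g_j(m) ≤ k`). The functions on the tree are `s ↦ g_j(wt s)`.
-/

set_option autoImplicit false

namespace Pool.Agent.Helper50.LF

open Pool.Agent.Helper33.HM Pool.Agent.Helper94.BA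
open Pool.Agent.Helper32.FR (wt)

universe u

variable {B : Type u} [CompleteBooleanAlgebra B]

/-- The value of: the node `a` belongs to `U(g ∘ wt)`. -/
def uV (g : ℕ → ℕ → B) (a : Node) : B :=
  ⨅ i : ℕ, ⨅ h : i < a.length, (eqN (g (wt (a.take i))) a[i])ᶜ

section Scales

variable {J : Type u}

/-- The value of: the node `x` belongs to the closure of `A` minus the point `x`, in the Dow space of
the family of all `g j ∘ wt` (where `j` belongs to the index set given by `w`). -/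
def clV (w : J → B) (g : J → ℕ → ℕ → B) (A : Node → B) (x : Node) : B :=
  ⨅ D : Finset J, ⨅ m : ℕ, (⨅ j : J, ⨅ _ : j ∈ D, w j ⊓ uV (g j) x) ⇨
    ⨆ a : Node, ⨆ _ : ∃ l, m ≤ l ∧ x ++ [l] <+: a, A a ⊓ ⨅ j : J, ⨅ _ : j ∈ D, uV (g j) a

/-- The value of: `z` is a sequence of elements of `A` (`z k a` is the value of: the `k`-th element
is `a`) which converges to `x` in the Dow space of the family. -/
def convV (w : J → B) (g : J → ℕ → ℕ → B) (A : Node → B) (x : Node) (z : ℕ → Node → B) : B :=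
  (⨅ k : ℕ, ⨆ a : Node, z k a ⊓ A a) ⊓
    (⨅ k : ℕ, ⨅ a : Node, ⨅ b : Node, ⨅ _ : a ≠ b, (z k a ⊓ z k b)ᶜ) ⊓
    (⨅ m : ℕ, ⨆ K : ℕ, ⨅ k : ℕ, ⨅ _ : K ≤ k, ⨆ a : Node, ⨆ _ : ∃ l, m ≤ l ∧ x ++ [l] <+: a, z k a) ⊓
    ⨅ j : J, (w j ⊓ uV (g j) x) ⇨ ⨆ K : ℕ, ⨅ k : ℕ, ⨅ _ : K ≤ k, ⨅ a : Node, z k a ⇨ uV (g j) a

/-- A name of a scale: the members are the strictly increasing functions `g j`, for the `j` in the
index set given by `w`; they increase with `j`, and every small family of functions is bounded by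
one of them. -/
structure WScale [LinearOrder J] (w : J → B) (g : J → ℕ → ℕ → B) : Prop where
  wf : WellFoundedLT J
  small : ∀ j : J, Small.{0} (Set.Iio j)
  fn : ∀ j, IsFn Set.univ (g j)
  inc : ∀ j m k, g j (m + 1) k ≤ ⨆ i : ℕ, ⨆ _ : i < k, g j m i
  le : ∀ j j', j < j' → w j ⊓ w j' ≤ leStar (g j) (g j')
  nle : ∀ j j', j < j' → w j ⊓ w j' ⊓ leStar (g j') (g j) = ⊥
  dom : ∀ (ι : Type) (φ : ι → ℕ → ℕ → B), (∀ i, IsFn Set.univ (φ i)) →
    ∃ j, w j = ⊤ ∧ ∀ i, leStar (φ i) (g j) = ⊤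
  root : ∀ j n, ⨆ j' : J, ⨆ _ : j ≤ j', w j' ⊓ (g j' 0 n)ᶜ = ⊤

/-- The Dow space of the scale is Frechet. -/
def FreV (w : J → B) (g : J → ℕ → ℕ → B) : Prop :=
  ∀ (A : Node → B) (x : Node), clV w g A x ≤ ⨆ z : ℕ → Node → B, convV w g A x z

/-- The Dow space of the scale is not Frechet, as witnessed by a set of the ground model. -/
def NonFreV (w : J → B) (g : J → ℕ → ℕ → B) : Prop :=
  ∃ (A : Set Node) (x : Node), x ∉ A ∧ clV w g (fun a => ⨆ _ : a ∈ A, ⊤) x = ⊤ ∧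
    ∀ z : ℕ → Node → B, convV w g (fun a => ⨆ _ : a ∈ A, ⊤) x z = ⊥

end Scales

/-- `br` is (a name for) a set of indices such that the sets `a x`, `x ∈ br`, are strictly decreasing
modulo finite sets and have no infinite pseudo-intersection. -/
structure Twr {Ω : Type} [LinearOrder Ω] (a : Ω → ℕ → B) (br : Ω → B) : Prop where
  wf : WellFoundedLT Ω
  inf : ∀ x, finV (a x) = ⊥
  dec : ∀ x y, x < y → br x ⊓ br y ≤ finV (a y ⊓ (a x)ᶜ)
  str : ∀ x y, x < y → br x ⊓ br y ⊓ finV (a x ⊓ (a y)ᶜ) = ⊥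
  max : ∀ Z : ℕ → B, (finV Z)ᶜ ≤ ⨆ x, br x ⊓ (finV (Z ⊓ (a x)ᶜ))ᶜ

end Pool.Agent.Helper50.LF
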