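import Pool.Agent.Helper50.LF.Names

/-!
# Project LF (MP_743798_lc), LF-3: accumulation
-/

set_option autoImplicit false
set_option linter.unusedSectionVars false

namespace Pool.Agent.Helper50.LF

open Pool.Agent.Helper33.HM Pool.Agent.Helper94.BA
open Pool.Agent.Helper32.FR (wt nd PN okV avV lsV valV incV accS accV piV Scale Bdg)

variable {B : Type 1} [CompleteBooleanAlgebra B] {c : Ordinal.{0} → ℕ → B}

theorem h50_av_of_u (x : ℕ → B) (t a : Node) : uV (decV x) a ≤ avV t x a := by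
  unfold uV avV valV
  refine le_iInf fun i => le_iInf fun h => le_iInf fun _ => ?_
  exact (iInf_le _ i).trans (iInf_le _ h)

theorem h50_pn (t a : Node) (k : ℕ) : (∃ l, k ≤ l ∧ t ++ [l] <+: a) ↔ PN t k a := by
  unfold PN
  constructor
  · rintro ⟨l, hl, u, hu⟩
    exact ⟨l, u, hl, by rw [← hu]; simp⟩
  · rintro ⟨j, u, hj, hu⟩
    exact ⟨j, hj, u, by rw [hu]; simp⟩

theorem h50_step (A : Node → B) (t : Node) (l : ℕ → Ordinal.{0}) (k m : ℕ)
    (D : Finset Ordinal.{0}) :
    clV (fun _ : Ordinal.{0} => (⊤ : B)) (fun β => decV (c β)) A t ⊓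
        (⨅ j : Ordinal.{0}, ⨅ _ : j ∈ D, uV (decV (c j)) t) ≤
      ⨆ a : Node, ⨆ _ : PN t k a, (A a ⊓ ⨅ j : Ordinal.{0}, ⨅ _ : j ∈ D, uV (decV (c j)) a) ⊓
        ⨅ i : ℕ, ⨅ _ : i < m, (okV t (c (l i)) ⇨ avV t (c (l i)) a) := by
  induction m generalizing D with
  | zero =>
    have h1 : clV (fun _ : Ordinal.{0} => (⊤ : B)) (fun β => decV (c β)) A t ≤
        (⨅ j : Ordinal.{0}, ⨅ _ : j ∈ D, ⊤ ⊓ uV (decV (c j)) t) ⇨
          ⨆ a : Node, ⨆ _ : ∃ l, k ≤ l ∧ t ++ [l] <+: a,
            A a ⊓ ⨅ j : Ordinal.{0}, ⨅ _ : j ∈ D, uV (decV (c j)) a :=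
      (iInf_le _ D).trans (iInf_le _ k)
    rw [le_himp_iff] at h1
    simp only [top_inf_eq] at h1
    refine h1.trans (iSup_le fun a => iSup_le fun ha => ?_)
    refine le_iSup_of_le a (le_iSup_of_le ((h50_pn t a k).1 ha) (le_inf le_rfl ?_))
    exact le_iInf fun i => le_iInf fun hi => absurd hi (Nat.not_lt_zero i)
  | succ m ih =>
    set b := clV (fun _ : Ordinal.{0} => (⊤ : B)) (fun β => decV (c β)) A t ⊓
        (⨅ j : Ordinal.{0}, ⨅ _ : j ∈ D, uV (decV (c j)) t) with hb
    have hsplit : b = (b ⊓ okV t (c (l m))) ⊔ (b ⊓ (okV t (c (l m)))ᶜ) := by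
      rw [← inf_sup_left, sup_compl_eq_top, inf_top_eq]
    rw [hsplit]
    refine sup_le ?_ ?_
    · have h1 : b ⊓ okV t (c (l m)) ≤
          clV (fun _ : Ordinal.{0} => (⊤ : B)) (fun β => decV (c β)) A t ⊓
            (⨅ j : Ordinal.{0}, ⨅ _ : j ∈ insert (l m) D, uV (decV (c j)) t) := by
        refine le_inf (inf_le_left.trans inf_le_left) (le_iInf fun j => le_iInf fun hj => ?_)
        rcases Finset.mem_insert.1 hj with rfl | hj
        · exact inf_le_right
        · exact inf_le_left.trans (inf_le_right.trans ((iInf_le _ j).trans (iInf_le _ hj)))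
      refine h1.trans ((ih (insert (l m) D)).trans (iSup_le fun a => iSup_le fun ha => ?_))
      refine le_iSup_of_le a (le_iSup_of_le ha (le_inf (le_inf ?_ ?_) ?_))
      · exact inf_le_left.trans inf_le_left
      · refine le_iInf fun j => le_iInf fun hj => inf_le_left.trans (inf_le_right.trans ?_)
        exact (iInf_le _ j).trans (iInf_le _ (Finset.mem_insert_of_mem hj))
      · refine le_iInf fun i => le_iInf fun hi => ?_
        rcases Nat.lt_succ_iff_lt_or_eq.1 hi with hi | rfl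
        · exact inf_le_right.trans ((iInf_le _ i).trans (iInf_le _ hi))
        · rw [le_himp_iff]
          refine inf_le_left.trans (inf_le_left.trans (inf_le_right.trans ?_))
          refine ((iInf_le _ (l i)).trans (iInf_le _ (Finset.mem_insert_self _ _))).trans ?_
          exact h50_av_of_u _ _ _
    · have h1 : b ⊓ (okV t (c (l m)))ᶜ ≤ (⨆ a : Node, ⨆ _ : PN t k a,
          (A a ⊓ ⨅ j : Ordinal.{0}, ⨅ _ : j ∈ D, uV (decV (c j)) a) ⊓
            ⨅ i : ℕ, ⨅ _ : i < m, (okV t (c (l i)) ⇨ avV t (c (l i)) a)) ⊓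
              (okV t (c (l m)))ᶜ := inf_le_inf (ih D) le_rfl
      refine h1.trans ?_
      rw [iSup_inf_eq]
      refine iSup_le fun a => ?_
      rw [iSup_inf_eq]
      refine iSup_le fun ha => le_iSup_of_le a (le_iSup_of_le ha (le_inf (inf_le_left.trans inf_le_left) ?_))
      refine le_iInf fun i => le_iInf fun hi => ?_
      rcases Nat.lt_succ_iff_lt_or_eq.1 hi with hi | rfl
      · exact inf_le_left.trans (inf_le_right.trans ((iInf_le _ i).trans (iInf_le _ hi)))
      · rw [le_himp_iff]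
        refine (inf_le_inf inf_le_right le_rfl).trans ?_
        rw [inf_comm, inf_compl_eq_bot]
        exact bot_le

theorem clV_le_accV (γ : Ordinal.{0}) (A : Node → B) (t : Node) :
    clV (fun _ : Ordinal.{0} => (⊤ : B)) (fun β => decV (c β)) A t ≤
      accV c γ (fun n => A (nd n)) t := by
  unfold accV
  refine le_iInf fun l => le_iInf fun m => le_iInf fun _ => le_iInf fun k => ?_
  have h := h50_step (c := c) A t l k m ∅
  have h0 : (⨅ j : Ordinal.{0}, ⨅ _ : j ∈ (∅ : Finset Ordinal.{0}), uV (decV (c j)) t) = ⊤ := by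
    simp
  rw [h0, inf_top_eq] at h
  refine h.trans (iSup_le fun a => iSup_le fun ha => ?_)
  have ha' : nd (Encodable.encode a) = a := Denumerable.ofNat_encode a
  unfold accS
  refine le_iSup_of_le (Encodable.encode a) ?_
  rw [ha']
  refine le_iSup_of_le ha (le_inf ?_ inf_le_right)
  show _ ≤ A (nd (Encodable.encode a))
  rw [ha']
  exact inf_le_left.trans inf_le_left

end Pool.Agent.Helper50.LF
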