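import Pool.Agent.Helper50.LF.Names
import Pool.Agent.Helper72.LF.FtTwr
import Pool.Agent.Helper32.FR.Ctm

/-!
# Project LF (MP_743798_lc): the names of scales of the forcing of project FR
-/

set_option autoImplicit false

namespace Pool.Agent.Helper50.LF

open Pool.Agent.Helper33.HM Pool.Agent.Helper94.BA
open Pool.Agent.Helper32.FR

theorem exists_data : ∃ (P : Type 1) (_ : Preorder P) (_ : OrderTop P) (Ω : Type)
    (_ : LinearOrder Ω) (c : Ordinal.{0} → ℕ → RO P) (a : Ω → ℕ → RO P) (br : Ω → RO P),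
    CCC (RO P) ∧ Bdg (RO P) ∧ Scale c ∧ (∀ γ A t, ⨆ Z : ℕ → RO P, piV c γ A t Z = ⊤) ∧
      Twr a br := by
  obtain ⟨Ω, iΩ, hwf, hΩ⟩ := exists_omOne'
  have h₀ : AC (PB Ω) := pb_ac hΩ
  have hP : Cardinal.mk (PB Ω) ≤ Cardinal.mk Ordinal.{0} := h77_mk_le_of_small _
  obtain ⟨tk, htk⟩ := exists_lists hP
  obtain ⟨F, hF⟩ := exists_rec (P₀ := PB Ω) (StepF tk)
  have hpp : PP (RO (Cnd F (⊤ : II))) := pp_iter h₀ ⟨⟨⊤⟩⟩ tk htk F hF
  have hb := bdg_of_pp hpp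
  obtain ⟨c, hc⟩ := exists_scale hb (exists_enum (cnd_ac h₀) (mk_cnd' hP F ⊤))
  have hcc : CCC (RO (FT F (⊤ : II))) := ro_ccc (h10_ft_ac (tm_ac hΩ))
  refine ⟨FT F (⊤ : II), inferInstance, inferInstance, Ω, iΩ, fun β n => eN (c β n), aT, brN, hcc,
    bdg_map eN_ce hcc (ft_noNew hΩ) hb, scale_map eN_ce (ft_noNew hΩ) hc, fun γ X t => ?_,
    ft_twr hΩ⟩
  exact pi_map eN_ce (ft_noNew hΩ) (fun γ X t => exists_pi hpp c γ X t) γ X t

end Pool.Agent.Helper50.LF
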