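import Pool.Agent.Helper50.LF.Sent

/-!
# Project LF (MP_743798_lc): the meaning of the relativised notions, part 2
-/

set_option autoImplicit false

namespace Pool.Agent.Helper50.LF

open Set Filter

theorem frechetIn_univ (B : Set (Node → ℕ)) :
    FrechetIn Set.univ B ↔ @FrechetUrysohnSpace Node (dow B) := by
  let _ : TopologicalSpace Node := dow B
  constructor
  · intro h
    refine ⟨fun A x hx => ?_⟩
    obtain ⟨z, -, hz, hlim⟩ := h A (mem_univ _) x hx
    exact ⟨z, hz, hlim⟩
  · intro h A _ x hx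
    obtain ⟨z, hz, hlim⟩ := h.closure_subset_seqClosure A hx
    exact ⟨z, mem_univ _, hz, hlim⟩

theorem robustIn_univ (B : Set (Node → ℕ)) :
    RobustIn Set.univ B ↔ ∀ X : Set Node, X.Infinite → ∀ g : Node → ℕ,
      ∃ f ∈ B, ¬ {s ∈ X | ¬ f s ≤ g s}.Finite :=
  ⟨fun h X hX g => h X (mem_univ _) hX g (mem_univ _), fun h X _ hX g _ => h X hX g⟩

end Pool.Agent.Helper50.LF
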